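import Pool.Agent.H.MP_8eb3db_al.A

namespace Pool.Agent.H.MP_689404_al

open FreeGroup Pool.Agent.H.MP_8eb3db_al

variable {α : Type} [DecidableEq α]

def lt (y : α × Bool) : FreeGroup α := mk [y]

lemma word_lt (y : α × Bool) : (lt y).toWord = [y] := rfl

lemma lt_inv (y : α × Bool) : (lt y)⁻¹ = lt (y.1, !y.2) := by
  simp [lt, inv_mk, invRev]

lemma word_cons {y : α × Bool} {g : FreeGroup α} (h : hd g ≠ some (y.1, !y.2)) :
    (lt y * g).toWord = y :: g.toWord := by
  rw [word_mul, word_lt]
  · rfl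
  · intro a ha b hb hab
    simp only [word_lt, List.getLast?_singleton, Option.mem_def, Option.some.injEq] at ha
    subst ha
    by_contra hne
    apply h
    rw [hd, Option.mem_def.1 hb]
    congr 1
    refine Prod.ext hab.symm ?_
    revert hne
    cases y.2 <;> cases b.2 <;> simp

lemma canc {p g : FreeGroup α} (h : ∀ l, hd p = some l → hd (p * g) ≠ some l) :
    g.toWord = p⁻¹.toWord ++ (p * g).toWord := by
  rw [← word_mul, inv_mul_cancel_left]
  intro a ha b hb hab
  have h1 := last_eq _ a ha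
  rw [inv_inv] at h1
  by_contra hne
  apply h _ h1
  rw [hd, Option.mem_def.1 hb]
  congr 1
  refine Prod.ext hab.symm ?_
  revert hne
  cases a.2 <;> cases b.2 <;> simp

lemma canc_eq {p q g : FreeGroup α} (hp : ∀ l, hd p = some l → hd (p * g) ≠ some l)
    (hq : ∀ l, hd q = some l → hd (q * g) ≠ some l) (hn : p.norm = q.norm) : p = q := by
  have h := (canc hp).symm.trans (canc hq)
  have := (List.append_inj h (by
    change p⁻¹.norm = q⁻¹.norm
    rw [norm_inv_eq, norm_inv_eq, hn])).1
  exact inv_injective (toWord_injective this)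

lemma canc_norm {p g : FreeGroup α} (h : ∀ l, hd p = some l → hd (p * g) ≠ some l) :
    g.norm = p.norm + (p * g).norm := by
  have := congrArg List.length (canc h)
  rw [List.length_append] at this
  rw [← norm_inv_eq (x := p)]
  exact this

lemma hd_split {y : α × Bool} {g : FreeGroup α} (h : hd g = some y) :
    hd ((lt y)⁻¹ * g) ≠ some (y.1, !y.2) ∧ g.norm = ((lt y)⁻¹ * g).norm + 1 := by
  unfold hd at h
  cases e : g.toWord with
  | nil => simp [e] at h
  | cons a l =>
    rw [e, List.head?_cons, Option.some.injEq] at h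
    subst h
    have hr : IsReduced (a :: l) := e ▸ isReduced_toWord
    have hl : (mk l).toWord = l := by
      rw [toWord_mk]
      exact IsReduced.reduce_eq (List.IsChain.tail hr)
    have e2 : (lt a)⁻¹ * g = mk l := by
      rw [inv_mul_eq_iff_eq_mul, ← mk_toWord (x := g), e, lt, mul_mk]
      rfl
    rw [e2]
    refine ⟨?_, ?_⟩
    · intro h2
      rw [hd, hl] at h2
      have := (List.isChain_cons.1 hr).1 _ h2 rfl
      simp at this
    · change g.toWord.length = (mk l).toWord.length + 1
      rw [e, hl]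
      rfl

lemma norm_cons {y : α × Bool} {g : FreeGroup α} (h : hd g ≠ some (y.1, !y.2)) :
    (lt y * g).norm = g.norm + 1 := by
  change (lt y * g).toWord.length = _
  rw [word_cons h]
  rfl

lemma hd_cons {y : α × Bool} {g : FreeGroup α} (h : hd g ≠ some (y.1, !y.2)) :
    hd (lt y * g) = some y := by
  rw [hd, word_cons h]
  rfl

variable [Fintype α]

noncomputable def S (k : ℕ) : Finset (FreeGroup α) := sp Set.univ k

lemma mem_S {k : ℕ} {g : FreeGroup α} : g ∈ S k ↔ g.norm = k := by simp [S, mem_sp]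

noncomputable def T (k : ℕ) (y : α × Bool) : Finset (FreeGroup α) :=
  (S k).filter (fun g => hd g ≠ some y)

noncomputable def N (k : ℕ) (y : α × Bool) : Finset (FreeGroup α) :=
  (S k).filter (fun g => hd g = some y)

lemma mem_T {k : ℕ} {y : α × Bool} {g : FreeGroup α} :
    g ∈ T k y ↔ g.norm = k ∧ hd g ≠ some y := by simp [T, mem_S]

lemma mem_N {k : ℕ} {y : α × Bool} {g : FreeGroup α} :
    g ∈ N k y ↔ g.norm = k ∧ hd g = some y := by simp [N, mem_S]

lemma card_N_T (k : ℕ) (y : α × Bool) : (N (k + 1) y).card = (T k (y.1, !y.2)).card := by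
  symm
  refine Finset.card_bij (fun g _ => lt y * g) ?_ ?_ ?_
  · intro g hg
    rw [mem_T] at hg
    exact mem_N.2 ⟨by rw [norm_cons hg.2, hg.1], hd_cons hg.2⟩
  · intro a _ b _ h
    exact mul_left_cancel h
  · intro g hg
    rw [mem_N] at hg
    have := hd_split hg.2
    exact ⟨(lt y)⁻¹ * g, mem_T.2 ⟨by omega, this.1⟩, by simp⟩

lemma card_S_N (k : ℕ) :
    (S (k + 1) : Finset (FreeGroup α)).card = ∑ y : α × Bool, (N (k + 1) y).card := by
  have : (S (k + 1) : Finset (FreeGroup α)) = Finset.univ.biUnion (N (k + 1)) := by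
    ext g
    simp only [Finset.mem_biUnion, Finset.mem_univ, true_and, mem_N, mem_S]
    refine ⟨fun h => ?_, fun ⟨_, h, _⟩ => h⟩
    obtain ⟨l, hl⟩ := hd_ne (g := g) (by rintro rfl; simp at h)
    exact ⟨l, h, hl⟩
  rw [this, Finset.card_biUnion]
  intro a _ b _ hab
  refine Finset.disjoint_left.2 (fun g h1 h2 => hab ?_)
  exact Option.some.inj ((mem_N.1 h1).2.symm.trans (mem_N.1 h2).2)

lemma card_T (k : ℕ) : ∀ y : α × Bool, (T k y).card = (2 * Fintype.card α - 1) ^ k := by
  induction k with
  | zero =>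
    intro y
    have : T 0 y = {1} := by
      ext g
      simp only [mem_T, FreeGroup.norm_eq_zero, Finset.mem_singleton, and_iff_left_iff_imp]
      rintro rfl
      simp [hd_one]
    simp [this]
  | succ k ih =>
    intro y
    have h1 := Finset.card_filter_add_card_filter_not (s := (S (k + 1) : Finset (FreeGroup α)))
      (fun g => hd g = some y)
    change (N (k + 1) y).card + (T (k + 1) y).card = _ at h1
    rw [card_S_N] at h1
    simp only [card_N_T, ih, Finset.sum_const, Finset.card_univ, Fintype.card_prod,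
      Fintype.card_bool, smul_eq_mul] at h1
    have : 0 < Fintype.card α := Fintype.card_pos_iff.2 ⟨y.1⟩
    obtain ⟨c, hc⟩ : ∃ c, 2 * Fintype.card α = c + 1 := ⟨2 * Fintype.card α - 1, by omega⟩
    rw [mul_comm _ 2, hc] at h1
    rw [hc]
    simp only [Nat.add_sub_cancel] at h1 ⊢
    rw [pow_succ]
    linarith

lemma card_N (k : ℕ) (y : α × Bool) : (N (k + 1) y).card = (2 * Fintype.card α - 1) ^ k := by
  rw [card_N_T, card_T]

lemma card_S (k : ℕ) : (S (k + 1) : Finset (FreeGroup α)).card =
    2 * Fintype.card α * (2 * Fintype.card α - 1) ^ k := by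
  rw [card_S_N]
  simp [card_N, mul_comm]

noncomputable def B (k : ℕ) : Finset (FreeGroup α) := (Finset.range (k + 1)).biUnion S

lemma mem_B {k : ℕ} {g : FreeGroup α} : g ∈ B k ↔ g.norm ≤ k := by
  simp [B, mem_S, Nat.lt_succ_iff]

lemma card_B (c : ℕ) (hc : Fintype.card α = c + 1) (k : ℕ) :
    c * (B k : Finset (FreeGroup α)).card + 1 ≤ (c + 1) * (2 * c + 1) ^ k := by
  induction k with
  | zero =>
    have : (B 0 : Finset (FreeGroup α)) = {1} := by
      ext g
      simp [mem_B]
    simp [this]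
  | succ k ih =>
    have h1 : (B (k + 1) : Finset (FreeGroup α)) ⊆ B k ∪ S (k + 1) := by
      intro g
      simp only [mem_B, Finset.mem_union, mem_S]
      omega
    have h2 := (Finset.card_le_card h1).trans (Finset.card_union_le _ _)
    rw [card_S, hc, show 2 * (c + 1) - 1 = 2 * c + 1 by omega] at h2
    have := Nat.mul_le_mul_left c h2
    rw [pow_succ]
    nlinarith

omit [Fintype α] in
lemma pp {ι : Type} [Nonempty ι] (a : ι → FreeGroup α) (X Y : ι → Set (FreeGroup α))
    (h1 : ∀ i, a i ≠ 1)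
    (hXne : ∀ i, (X i).Nonempty) (hX : Pairwise (Function.onFun Disjoint X))
    (hY : Pairwise (Function.onFun Disjoint Y)) (hXY : ∀ i j, Disjoint (X i) (Y j))
    (h2 : ∀ i g, g ∉ Y i → a i * g ∈ X i) (h3 : ∀ i g, g ∉ X i → (a i)⁻¹ * g ∈ Y i) :
    Function.Injective (lift a) := by
  rcases subsingleton_or_nontrivial ι with hι | hι
  · obtain ⟨i⟩ := ‹Nonempty ι›
    have : ∀ w : FreeGroup ι, ∃ z : ℤ, w = of i ^ z := by
      intro w
      induction w using FreeGroup.induction_on with
      | C1 => exact ⟨0, by simp⟩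
      | of x => exact ⟨1, by simp [Subsingleton.elim x i]⟩
      | inv_of x _ => exact ⟨-1, by simp [Subsingleton.elim x i]⟩
      | mul x y hx hy =>
        obtain ⟨u, rfl⟩ := hx
        obtain ⟨v, rfl⟩ := hy
        exact ⟨u + v, by rw [zpow_add]⟩
    rw [injective_iff_map_eq_one]
    intro w hw
    obtain ⟨z, rfl⟩ := this w
    rw [map_zpow, lift_apply_of] at hw
    by_cases hz : z = 0
    · simp [hz]
    · exact absurd ((IsMulTorsionFree.zpow_eq_one_iff_left hz).1 hw) (h1 i)
  · refine FreeGroup.injective_lift_of_ping_pong a X Y hXne hX hY hXY ?_ ?_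
    · rintro i _ ⟨g, hg, rfl⟩
      exact h2 i g hg
    · rintro i _ ⟨g, hg, rfl⟩
      exact h3 i g hg

omit [Fintype α] in
lemma to_set {ι : Type} [Fintype ι] (a : ι → FreeGroup α) (h : Function.Injective (lift a))
    {n : ℕ} (hn : ∀ i, (a i).norm = n) :
    ∃ A : Finset (FreeGroup α), (∀ g ∈ A, g.norm = n) ∧
      Function.Injective (lift (fun g : A => (g : FreeGroup α))) ∧ A.card = Fintype.card ι := by
  classical
  have ha : Function.Injective a := fun i j e =>
    of_injective (h (by rw [lift_apply_of, lift_apply_of, e]))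
  refine ⟨Finset.univ.image a, ?_, ?_, by rw [Finset.card_image_of_injective _ ha]; rfl⟩
  · intro g hg
    obtain ⟨i, _, rfl⟩ := Finset.mem_image.1 hg
    exact hn i
  · have h2 : ∀ g : (Finset.univ.image a : Finset (FreeGroup α)), ∃ i, a i = g := by
      intro g
      obtain ⟨i, _, e⟩ := Finset.mem_image.1 g.2
      exact ⟨i, e⟩
    choose f hf using h2
    have e : lift (fun g : (Finset.univ.image a : Finset (FreeGroup α)) => (g : FreeGroup α)) =
        (lift a).comp (FreeGroup.map f) := by
      ext g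
      simp [hf]
    rw [e]
    refine h.comp (FreeGroup.map_injective (fun g g' e => Subtype.ext ?_))
    rw [← hf, ← hf, e]

lemma low_odd [Nonempty α] (m : ℕ) : ∃ A : Finset (FreeGroup α), (∀ g ∈ A, g.norm = 2 * m + 1) ∧
    Function.Injective (lift (fun g : A => (g : FreeGroup α))) ∧
    A.card = Fintype.card α * (2 * Fintype.card α - 1) ^ m := by
  have hc : 0 < Fintype.card α := Fintype.card_pos
  obtain ⟨M, hM⟩ : ∃ M, M = (2 * Fintype.card α - 1) ^ m := ⟨_, rfl⟩
  have hM0 : 0 < M := by rw [hM]; exact pow_pos (by omega) _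
  have : Nonempty (Fin M) := ⟨⟨0, hM0⟩⟩
  have h1 : ∀ y : α × Bool, ∃ t : Fin M ↪ FreeGroup α, Set.range t ⊆ T m y := fun y =>
    Function.Embedding.exists_of_card_le_finset (by rw [card_T, Fintype.card_fin, hM])
  choose t ht using h1
  have ht' : ∀ y j, (t y j).norm = m ∧ hd (t y j) ≠ some y := fun y j =>
    mem_T.1 (ht y ⟨j, rfl⟩)
  let a : α × Fin M → FreeGroup α := fun i =>
    (t (i.1, true) i.2)⁻¹ * (lt (i.1, true) * t (i.1, false) i.2)
  have hn : ∀ i, (a i).norm = 2 * m + 1 := by
    intro i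
    have e : t (i.1, true) i.2 * a i = lt (i.1, true) * t (i.1, false) i.2 := by simp [a]
    rw [canc_norm (p := t (i.1, true) i.2), e,
      norm_cons (y := (i.1, true)) (ht' (i.1, false) _).2, (ht' _ _).1, (ht' _ _).1]
    · ring
    · intro l hl
      rw [e, hd_cons (y := (i.1, true)) (ht' (i.1, false) _).2, ← hl]
      exact (ht' _ _).2.symm
  have key : ∀ {y y' j j' g}, hd (t y j * g) = some y → hd (t y' j' * g) = some y' →
      y = y' ∧ j = j' := by
    intro y y' j j' g h h'
    have e : t y j = t y' j' := canc_eq (g := g)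
      (fun l hl => by rw [h, ← hl]; exact (ht' _ _).2.symm)
      (fun l hl => by rw [h', ← hl]; exact (ht' _ _).2.symm) (by rw [(ht' _ _).1, (ht' _ _).1])
    rw [e, h', Option.some.injEq] at h
    subst h
    exact ⟨rfl, (t _).injective e⟩
  suffices hi : Function.Injective (lift a) by
    obtain ⟨A, h2, h3, h4⟩ := to_set a hi hn
    exact ⟨A, h2, h3, by rw [h4, ← hM]; simp⟩
  refine pp a (fun i => {g | hd (t (i.1, true) i.2 * g) = some (i.1, true)})
    (fun i => {g | hd (t (i.1, false) i.2 * g) = some (i.1, false)}) ?_ ?_ ?_ ?_ ?_ ?_ ?_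
  · intro i e
    have := hn i
    rw [e] at this
    simp at this
  · intro i
    exact ⟨(t (i.1, true) i.2)⁻¹ * lt (i.1, true), by simp [hd, word_lt]⟩
  · intro i j hij
    refine Set.disjoint_left.2 (fun g h h' => hij ?_)
    have := key h h'
    exact Prod.ext (Prod.mk.inj this.1).1 this.2
  · intro i j hij
    refine Set.disjoint_left.2 (fun g h h' => hij ?_)
    have := key h h'
    exact Prod.ext (Prod.mk.inj this.1).1 this.2
  · intro i j
    refine Set.disjoint_left.2 (fun g h h' => ?_)
    simpa using (key h h').1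
  · intro i g hg
    have e : t (i.1, true) i.2 * (a i * g) = lt (i.1, true) * (t (i.1, false) i.2 * g) := by
      simp [a, mul_assoc]
    change hd _ = _
    rw [e]
    exact hd_cons hg
  · intro i g hg
    have e : t (i.1, false) i.2 * ((a i)⁻¹ * g) = lt (i.1, false) * (t (i.1, true) i.2 * g) := by
      simp [a, mul_assoc, lt_inv]
    change hd _ = _
    rw [e]
    exact hd_cons hg

lemma low_even [Nonempty α] (k : ℕ) : ∃ A : Finset (FreeGroup α),
    (∀ g ∈ A, g.norm = 2 * (k + 1)) ∧
    Function.Injective (lift (fun g : A => (g : FreeGroup α))) ∧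
    A.card = (2 * Fintype.card α - 1) ^ (k + 1) := by
  have hc : 0 < Fintype.card α := Fintype.card_pos
  obtain ⟨M, hM⟩ : ∃ M, M = (2 * Fintype.card α - 1) ^ k := ⟨_, rfl⟩
  have hM0 : 0 < M := by rw [hM]; exact pow_pos (by omega) _
  have : Nonempty (Fin M) := ⟨⟨0, hM0⟩⟩
  have h1 : ∀ y : α × Bool, ∃ t : Fin M ↪ FreeGroup α, Set.range t ⊆ N (k + 1) y := fun y =>
    Function.Embedding.exists_of_card_le_finset (by rw [card_N, Fintype.card_fin, hM])
  choose t ht using h1
  have ht' : ∀ y j, (t y j).norm = k + 1 ∧ hd (t y j) = some y := fun y j =>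
    mem_N.1 (ht y ⟨j, rfl⟩)
  obtain ⟨x0⟩ := ‹Nonempty α›
  have : Nonempty {y : α × Bool // y ≠ (x0, true)} := ⟨⟨(x0, false), by simp⟩⟩
  let a : {y : α × Bool // y ≠ (x0, true)} × Fin M → FreeGroup α := fun i =>
    (t (x0, true) i.2)⁻¹ * t i.1 i.2
  have hn : ∀ i, (a i).norm = 2 * (k + 1) := by
    intro i
    have e : t (x0, true) i.2 * a i = t i.1 i.2 := by simp [a]
    rw [canc_norm (p := t (x0, true) i.2), e, (ht' _ _).1, (ht' _ _).1]
    · ring
    · intro l hl
      rw [e, (ht' _ _).2, ← hl, (ht' _ _).2]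
      exact fun h => i.1.2 (Option.some.inj h)
  have key : ∀ {y y' j j' g}, hd (t y j * g) ≠ some y → hd (t y' j' * g) ≠ some y' →
      y = y' ∧ j = j' := by
    intro y y' j j' g h h'
    have e : t y j = t y' j' := canc_eq (g := g)
      (fun l hl => by rw [← hl, (ht' _ _).2]; exact h)
      (fun l hl => by rw [← hl, (ht' _ _).2]; exact h') (by rw [(ht' _ _).1, (ht' _ _).1])
    have h2 := (ht' y j).2
    rw [e, (ht' _ _).2, Option.some.injEq] at h2
    subst h2
    exact ⟨rfl, (t _).injective e⟩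
  have k2 : ∀ {i : {y : α × Bool // y ≠ (x0, true)} × Fin M} {g},
      hd (t (x0, true) i.2 * g) = some i.1.1 → hd (t (x0, true) i.2 * g) ≠ some (x0, true) :=
    fun {i g} h e => i.1.2 (Option.some.inj (h.symm.trans e))
  suffices hi : Function.Injective (lift a) by
    obtain ⟨A, h2, h3, h4⟩ := to_set a hi hn
    refine ⟨A, h2, h3, ?_⟩
    rw [h4, pow_succ', ← hM]
    simp [mul_comm]
  refine pp a (fun i => {g | hd (t (x0, true) i.2 * g) = some i.1.1})
    (fun i => {g | hd (t i.1 i.2 * g) ≠ some i.1.1}) ?_ ?_ ?_ ?_ ?_ ?_ ?_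
  · intro i e
    have := hn i
    rw [e] at this
    simp at this
  · intro i
    exact ⟨(t (x0, true) i.2)⁻¹ * lt i.1, by simp [hd, word_lt]⟩
  · intro i j hij
    refine Set.disjoint_left.2 (fun g h h' => hij ?_)
    have h5 := (key (k2 h) (k2 h')).2
    refine Prod.ext (Subtype.ext (Option.some.inj ?_)) h5
    rw [← show _ = some i.1.1 from h, h5]
    exact h'
  · intro i j hij
    refine Set.disjoint_left.2 (fun g h h' => hij ?_)
    have := key h h'
    exact Prod.ext (Subtype.ext this.1) this.2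
  · intro i j
    refine Set.disjoint_left.2 (fun g h h' => ?_)
    exact j.1.2 (key (k2 h) h').1.symm
  · intro i g hg
    have e : t (x0, true) i.2 * (a i * g) = t i.1 i.2 * g := by simp [a, mul_assoc]
    change hd _ = _
    rw [e]
    exact not_not.1 hg
  · intro i g hg
    have e : t i.1 i.2 * ((a i)⁻¹ * g) = t (x0, true) i.2 * g := by simp [a, mul_assoc]
    change hd _ ≠ _
    rw [e]
    exact hg

end Pool.Agent.H.MP_689404_al
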