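import Pool.Agent.H.MP_689404_al.A

namespace Pool.Agent.H.MP_689404_al

open FreeGroup Pool.Agent.H.MP_8eb3db_al

variable {α : Type} [DecidableEq α] {H : Subgroup (FreeGroup α)}

def edge (H : Subgroup (FreeGroup α)) (y : α × Bool) (l : List (α × Bool)) :
    (FreeGroup α ⧸ H) × α :=
  (((if y.2 then mk l else mk (y :: l) : FreeGroup α) : FreeGroup α ⧸ H), y.1)

def P (w : (FreeGroup α ⧸ H) × α → ℚ) : List (α × Bool) → ℚ
  | [] => 0
  | y :: l => (if y.2 then w (edge H y l) else - w (edge H y l)) + P w l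

omit [DecidableEq α] in
lemma P_congr {w w' : (FreeGroup α ⧸ H) × α → ℚ} (l : List (α × Bool))
    (h : ∀ l1 y l2, l = l1 ++ y :: l2 → w (edge H y l2) = w' (edge H y l2)) : P w l = P w' l := by
  induction l with
  | nil => rfl
  | cons y l ih =>
    rw [P, P, h [] y l rfl, ih (fun l1 z l2 e => h (y :: l1) z l2 (by rw [e]; rfl))]

omit [DecidableEq α] in
lemma mk_true (x : α) (l : List (α × Bool)) : mk ((x, true) :: l) = of x * mk l := by
  rw [of, mul_mk]; rfl

omit [DecidableEq α] in
lemma mk_false (x : α) (l : List (α × Bool)) : of x * mk ((x, false) :: l) = mk l := by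
  have : mk ((x, false) :: l) = (of x)⁻¹ * mk l := by
    rw [of, inv_mk, mul_mk]; simp [invRev]
  rw [this, mul_inv_cancel_left]

omit [DecidableEq α] in
lemma P_pot {w : (FreeGroup α ⧸ H) × α → ℚ} (ψ : FreeGroup α → ℚ)
    (h : ∀ (g : FreeGroup α) x, w ((g : FreeGroup α ⧸ H), x) = ψ (of x * g) - ψ g)
    (l : List (α × Bool)) : P w l = ψ (mk l) - ψ 1 := by
  induction l with
  | nil => simp [P, ← one_eq_mk]
  | cons y l ih =>
    obtain ⟨x, b⟩ := y
    cases b
    · simp [P, edge, ih, h, mk_false]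
    · simp only [P, edge, ih, h, mk_true]
      simp

omit [DecidableEq α] in
lemma P_add (w w' : (FreeGroup α ⧸ H) × α → ℚ) (l : List (α × Bool)) :
    P (w + w') l = P w l + P w' l := by
  induction l with
  | nil => simp [P]
  | cons y l ih =>
    simp only [P, ih, Pi.add_apply]
    split_ifs <;> ring

omit [DecidableEq α] in
lemma P_smul (c : ℚ) (w : (FreeGroup α ⧸ H) × α → ℚ) (l : List (α × Bool)) :
    P (c • w) l = c * P w l := by
  induction l with
  | nil => simp [P]
  | cons y l ih =>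
    simp only [P, ih, Pi.smul_apply, smul_eq_mul]
    split_ifs <;> ring

lemma dim_le {U V W : Type} [AddCommGroup U] [Module ℚ U] [AddCommGroup V] [Module ℚ V]
    [AddCommGroup W] [Module ℚ W] [FiniteDimensional ℚ V] (D : U →ₗ[ℚ] V) (L : V →ₗ[ℚ] W)
    (hD : Function.Injective D) (hL : Function.Surjective L) (h : ∀ u, L (D u) = 0) :
    Module.finrank ℚ W + Module.finrank ℚ U ≤ Module.finrank ℚ V := by
  rw [← LinearMap.finrank_range_add_finrank_ker L, LinearMap.range_eq_top.2 hL, finrank_top,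
    ← LinearMap.finrank_range_of_inj hD]
  refine Nat.add_le_add_left (Submodule.finrank_mono ?_) _
  rintro _ ⟨u, rfl⟩
  exact h u

open Classical in
noncomputable def ex {β : Type} (E : Finset β) : (E → ℚ) →ₗ[ℚ] (β → ℚ) where
  toFun w e := if h : e ∈ E then w ⟨e, h⟩ else 0
  map_add' w w' := by ext e; simp only [Pi.add_apply]; split_ifs <;> simp
  map_smul' c w := by ext e; simp only [Pi.smul_apply]; split_ifs <;> simp

lemma ex_mem {β : Type} {E : Finset β} (w : E → ℚ) {e : β} (h : e ∈ E) : ex E w e = w ⟨e, h⟩ :=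
  dif_pos h

lemma ex_not {β : Type} {E : Finset β} (w : E → ℚ) {e : β} (h : e ∉ E) : ex E w e = 0 :=
  dif_neg h

lemma main_ineq (A : Finset (FreeGroup α))
    (hA : Function.Injective (lift (fun g : A => (g : FreeGroup α))))
    (hH : H = (lift (fun g : A => (g : FreeGroup α))).range)
    (V : Finset (FreeGroup α ⧸ H)) (E : Finset ((FreeGroup α ⧸ H) × α))
    (h0 : ((1 : FreeGroup α) : FreeGroup α ⧸ H) ∉ V)
    (h1 : ∀ a ∈ A, ∀ l1 y l2, a.toWord = l1 ++ y :: l2 → edge H y l2 ∈ E)
    (h2 : ∀ F : FreeGroup α ⧸ H → ℚ, F (1 : FreeGroup α) = 0 →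
      (∀ e ∈ E, F (of e.2 • e.1) = F e.1) → ∀ v ∈ V, F v = 0) :
    A.card + V.card ≤ E.card := by
  have hmem : ∀ a : A, (a : FreeGroup α) ∈ H := fun a => hH ▸ ⟨of a, lift_apply_of⟩
  let L : (E → ℚ) →ₗ[ℚ] (A → ℚ) :=
    { toFun := fun w a => P (ex E w) (a : FreeGroup α).toWord
      map_add' := fun w w' => by ext a; simp [P_add]
      map_smul' := fun c w => by ext a; simp [P_smul] }
  let D : (V → ℚ) →ₗ[ℚ] (E → ℚ) :=
    { toFun := fun f e => ex V f (of e.1.2 • e.1.1) - ex V f e.1.1
      map_add' := fun w w' => by ext a; simp only [map_add, Pi.add_apply]; ring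
      map_smul' := fun c w => by
        ext a; simp only [map_smul, Pi.smul_apply, smul_eq_mul, RingHom.id_apply]; ring }
  have hL : ∀ (w : (FreeGroup α ⧸ H) × α → ℚ) (a : A),
      L (fun e => w e) a = P w (a : FreeGroup α).toWord := fun w a =>
    P_congr _ (fun l1 y l2 e => ex_mem _ (h1 a a.2 l1 y l2 e))
  have := dim_le D L ?_ ?_ ?_
  · simpa using this
  · rw [injective_iff_map_eq_zero]
    intro f hf
    ext v
    have := h2 (ex V f) (ex_not _ h0) (fun e he => sub_eq_zero.1 (congrFun hf ⟨e, he⟩)) v v.2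
    rwa [ex_mem _ v.2] at this
  · intro c
    let φ : FreeGroup α → ℚ := fun g => Multiplicative.toAdd
      (lift (fun a => Multiplicative.ofAdd (c a))
        (Function.invFun (lift (fun g : A => (g : FreeGroup α))) g))
    have hφ : ∀ u, φ (lift (fun g : A => (g : FreeGroup α)) u) =
        Multiplicative.toAdd (lift (fun a => Multiplicative.ofAdd (c a)) u) := fun u => by
      simp only [φ, Function.leftInverse_invFun hA u]
    have hm : ∀ g ∈ H, ∀ h ∈ H, φ (g * h) = φ g + φ h := by
      subst hH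
      rintro _ ⟨u, rfl⟩ _ ⟨v, rfl⟩
      rw [← _root_.map_mul, hφ, hφ, hφ, _root_.map_mul, toAdd_mul]
    have ho : ∀ g : FreeGroup α, (g : FreeGroup α ⧸ H).out⁻¹ * g ∈ H := fun g =>
      QuotientGroup.eq.1 (Quotient.out_eq _)
    refine ⟨fun e => φ ((of e.1.2 • e.1.1).out⁻¹ * of e.1.2 * e.1.1.out), ?_⟩
    ext a
    rw [hL (fun e => φ ((of e.2 • e.1).out⁻¹ * of e.2 * e.1.out)),
      P_pot (fun g => φ ((g : FreeGroup α ⧸ H).out⁻¹ * g)), mk_toWord]
    · have e : ((a : FreeGroup α) : FreeGroup α ⧸ H) = (1 : FreeGroup α) := by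
        rw [QuotientGroup.eq]
        simpa using hmem a
      have h3 := hm _ (ho 1) _ (hmem a)
      have h4 := hφ (of a)
      simp only [lift_apply_of, toAdd_ofAdd] at h4
      simp only [e]
      rw [mul_one] at h3 ⊢
      rw [h3, h4]
      ring
    · intro g x
      have e : of x • (g : FreeGroup α ⧸ H) = ((of x * g : FreeGroup α) : FreeGroup α ⧸ H) := rfl
      have h3 : (of x • (g : FreeGroup α ⧸ H)).out⁻¹ * of x * (g : FreeGroup α ⧸ H).out ∈ H := by
        have := H.mul_mem (ho (of x * g)) (H.inv_mem (ho g))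
        rw [e]
        simpa [mul_assoc] using this
      have h4 := hm _ h3 _ (ho g)
      simp only [e] at h4 ⊢
      rw [eq_sub_iff_add_eq, ← h4]
      simp [mul_assoc]
  · intro f
    ext a
    have e : ((a : FreeGroup α) : FreeGroup α ⧸ H) = (1 : FreeGroup α) := by
      rw [QuotientGroup.eq]
      simpa using hmem a
    have := hL (fun e => ex V f (of e.2 • e.1) - ex V f e.1) a
    rw [P_pot (fun g => ex V f g) (fun g x => rfl), mk_toWord, e, sub_self] at this
    exact this

def R (H : Subgroup (FreeGroup α)) (k : ℕ) (v : FreeGroup α ⧸ H) : Prop :=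
  ∃ g : FreeGroup α, g.norm ≤ k ∧ (g : FreeGroup α ⧸ H) = v

lemma R_suf (l : List (α × Bool)) {k : ℕ} (h : l.length ≤ k) : R H k (mk l : FreeGroup α) :=
  ⟨mk l, norm_mk_le.trans h, rfl⟩

lemma R_pre {l1 l2 : List (α × Bool)} (ha : mk (l1 ++ l2) ∈ H) {k : ℕ} (h : l1.length ≤ k) :
    R H k (mk l2 : FreeGroup α) := by
  refine ⟨(mk l1)⁻¹, by rw [norm_inv_eq]; exact norm_mk_le.trans h, ?_⟩
  rw [QuotientGroup.eq, inv_inv, mul_mk]
  exact ha

lemma conn {F : FreeGroup α ⧸ H → ℚ} {k : ℕ} (h0 : F (1 : FreeGroup α) = 0)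
    (h : ∀ v (x : α), R H k v → F (of x • v) = F v) (v : FreeGroup α ⧸ H) (hv : R H k v) : F v = 0 := by
  obtain ⟨g, hg, rfl⟩ := hv
  have : ∀ l : List (α × Bool), l.length ≤ k → F (mk l : FreeGroup α) = 0 := by
    intro l
    induction l with
    | nil => intro _; exact h0
    | cons y l ih =>
      intro hl
      obtain ⟨x, b⟩ := y
      have h1 := ih (by simp at hl; omega)
      cases b
      · rw [← h _ x (R_suf _ hl), ← h1, ← mk_false x l]
        rfl
      · rw [← h1, ← h _ x (R_suf l (by simp at hl; omega)), mk_true]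
        rfl
  have := this g.toWord hg
  rwa [mk_toWord] at this

variable [Fintype α]

open Classical in
noncomputable def V1 (H : Subgroup (FreeGroup α)) (k : ℕ) : Finset (FreeGroup α ⧸ H) :=
  (B k).image (fun g : FreeGroup α => (g : FreeGroup α ⧸ H))

lemma mem_V1 {k : ℕ} {v : FreeGroup α ⧸ H} : v ∈ V1 H k ↔ R H k v := by
  simp [V1, R, mem_B]

lemma card_V1 (c : ℕ) (hc : Fintype.card α = c + 1) (k : ℕ) :
    c * (V1 H k).card + 1 ≤ (c + 1) * (2 * c + 1) ^ k := by
  classical
  refine le_trans ?_ (card_B c hc k)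
  refine Nat.add_le_add_right (Nat.mul_le_mul_left _ ?_) _
  unfold V1
  convert Finset.card_image_le

lemma one_V1 (k : ℕ) : ((1 : FreeGroup α) : FreeGroup α ⧸ H) ∈ V1 H k :=
  mem_V1.2 ⟨1, by simp, rfl⟩

lemma up_odd (c : ℕ) (hc : Fintype.card α = c + 1) (m : ℕ) (A : Finset (FreeGroup α))
    (hn : ∀ g ∈ A, g.norm = 2 * m + 1)
    (hA : Function.Injective (lift (fun g : A => (g : FreeGroup α)))) :
    A.card ≤ (c + 1) * (2 * c + 1) ^ m := by
  classical
  obtain ⟨H, hH⟩ : ∃ H, H = (lift (fun g : A => (g : FreeGroup α))).range := ⟨_, rfl⟩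
  have h1 := main_ineq A hA hH ((V1 H m).erase (1 : FreeGroup α)) (V1 H m ×ˢ Finset.univ)
    (Finset.notMem_erase _ _) ?_ ?_
  · have h2 := card_V1 (H := H) c hc m
    have h3 := Finset.card_erase_add_one (one_V1 (H := H) m)
    rw [Finset.card_product, Finset.card_univ, hc] at h1
    nlinarith
  · intro a ha l1 y l2 e
    have hl : l1.length + (l2.length + 1) = 2 * m + 1 := by
      rw [← hn a ha, FreeGroup.norm, e]; simp
    have hm : mk (l1 ++ y :: l2) ∈ H := by
      rw [← e, mk_toWord, hH]; exact ⟨of ⟨a, ha⟩, lift_apply_of⟩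
    simp only [Finset.mem_product, Finset.mem_univ, and_true, mem_V1, edge]
    split_ifs
    · by_cases h : l2.length ≤ m
      · exact R_suf _ h
      · exact R_pre (l1 := l1 ++ [y]) (by simpa using hm) (by simp; omega)
    · by_cases h : l1.length ≤ m
      · exact R_pre hm h
      · exact R_suf _ (by simp; omega)
  · intro F h0 h v hv
    exact conn h0 (fun v x hv => h (v, x) (by simp [mem_V1, hv])) v
      (mem_V1.1 (Finset.mem_of_mem_erase hv))

lemma up_even (c : ℕ) (hc : Fintype.card α = c + 1) (k : ℕ) (A : Finset (FreeGroup α))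
    (hn : ∀ g ∈ A, g.norm = 2 * (k + 1))
    (hA : Function.Injective (lift (fun g : A => (g : FreeGroup α)))) :
    A.card ≤ (2 * c + 1) ^ (k + 1) := by
  classical
  obtain ⟨H, hH⟩ : ∃ H, H = (lift (fun g : A => (g : FreeGroup α))).range := ⟨_, rfl⟩
  let E2 : Finset ((FreeGroup α ⧸ H) × α) :=
    (((V1 H k ×ˢ (Finset.univ : Finset α)).image
      (fun e => ((of e.2)⁻¹ • e.1, e.2))).filter (fun e => e.1 ∉ V1 H k))
  have hE2 : ∀ e, e ∈ E2 ↔ R H k (of e.2 • e.1) ∧ ¬ R H k e.1 := by
    rintro ⟨v, x⟩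
    simp only [E2, Finset.mem_filter, Finset.mem_image, Finset.mem_product, Finset.mem_univ,
      and_true, mem_V1, Prod.exists, Prod.mk.injEq]
    refine and_congr_left' ⟨?_, fun h => ⟨_, x, h, by simp, rfl⟩⟩
    rintro ⟨u, z, h, rfl, rfl⟩
    simpa using h
  have c1 : E2.card ≤ (E2.image Prod.fst).card * (c + 1) := by
    rw [← hc, ← Finset.card_univ, ← Finset.card_product]
    refine Finset.card_le_card (fun e he => ?_)
    simp only [Finset.mem_product, Finset.mem_univ, and_true]
    exact Finset.mem_image_of_mem _ he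
  have c2 : E2.card ≤ (c + 1) * (2 * c + 1) ^ k := by
    have : E2 ⊆ Finset.univ.biUnion (fun x : α => (T k (x, true)).image
        (fun g => ((((of x)⁻¹ * g : FreeGroup α) : FreeGroup α ⧸ H), x))) := by
      rintro ⟨v, x⟩ he
      obtain ⟨⟨g, hg, e⟩, h2⟩ := (hE2 _).1 he
      have e2 : (((of x)⁻¹ * g : FreeGroup α) : FreeGroup α ⧸ H) = v := by
        have : (of x)⁻¹ • (g : FreeGroup α ⧸ H) = v := by rw [e]; simp
        exact this
      have h3 : k < ((of x)⁻¹ * g).norm := by
        by_contra h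
        exact h2 ⟨_, not_lt.1 h, e2⟩
      have h4 := FreeGroup.norm_mul_le (of x)⁻¹ g
      rw [norm_inv_eq, norm_of] at h4
      simp only [Finset.mem_biUnion, Finset.mem_univ, true_and, Finset.mem_image]
      refine ⟨x, g, mem_T.2 ⟨by omega, fun h => ?_⟩, by rw [e2]⟩
      have h5 : g.norm = ((of x)⁻¹ * g).norm + 1 := (hd_split h).2
      omega
    refine (Finset.card_le_card this).trans (Finset.card_biUnion_le.trans ?_)
    refine (Finset.sum_le_sum (fun x _ => Finset.card_image_le)).trans ?_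
    simp only [card_T, hc, Finset.sum_const, Finset.card_univ, smul_eq_mul]
    rw [show 2 * (c + 1) - 1 = 2 * c + 1 by omega]
  have h1 := main_ineq A hA hH ((V1 H k).erase (1 : FreeGroup α) ∪ E2.image Prod.fst)
    (V1 H k ×ˢ Finset.univ ∪ E2) ?_ ?_ ?_
  · have h2 := card_V1 (H := H) c hc k
    have h3 := Finset.card_erase_add_one (one_V1 (H := H) k)
    have h4 := Finset.card_union_le (V1 H k ×ˢ (Finset.univ : Finset α)) E2
    rw [Finset.card_union_of_disjoint] at h1
    · rw [Finset.card_product, Finset.card_univ, hc] at h4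
      apply Nat.le_of_mul_le_mul_left (c := c + 1) _ (by omega)
      rw [pow_succ]
      have h5 := Nat.mul_le_mul_left (c + 1) (h1.trans h4)
      have h6 := Nat.mul_le_mul_left (c + 1) h2
      have h7 := Nat.mul_le_mul_left c c2
      nlinarith
    · refine Finset.disjoint_left.2 (fun v h h' => ?_)
      obtain ⟨e, he, rfl⟩ := Finset.mem_image.1 h'
      exact ((hE2 e).1 he).2 (mem_V1.1 (Finset.mem_of_mem_erase h))
  · rw [Finset.mem_union, not_or]
    refine ⟨Finset.notMem_erase _ _, fun h => ?_⟩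
    obtain ⟨e, he, e1⟩ := Finset.mem_image.1 h
    exact ((hE2 e).1 he).2 (e1 ▸ mem_V1.1 (one_V1 k))
  · intro a ha l1 y l2 e
    have hl : l1.length + (l2.length + 1) = 2 * (k + 1) := by
      rw [← hn a ha, FreeGroup.norm, e]; simp
    have hm : mk (l1 ++ y :: l2) ∈ H := by
      rw [← e, mk_toWord, hH]; exact ⟨of ⟨a, ha⟩, lift_apply_of⟩
    have h5 : R H k (mk l2 : FreeGroup α) ∨ R H k (mk (y :: l2) : FreeGroup α) := by
      by_cases h : l2.length ≤ k
      · exact Or.inl (R_suf _ h)
      · exact Or.inr (R_pre hm (by omega))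
    have h6 : R H k (edge H y l2).1 ∨ R H k (of (edge H y l2).2 • (edge H y l2).1) := by
      obtain ⟨x, b⟩ := y
      cases b
      · rw [← mk_false x l2] at h5
        exact h5.symm
      · rw [mk_true] at h5
        exact h5
    simp only [Finset.mem_union, Finset.mem_product, Finset.mem_univ, and_true, mem_V1, hE2]
    tauto
  · intro F h0 h v hv
    have h5 := conn h0 (fun v x hv => h (v, x) (by simp [mem_V1, hv])) (k := k)
    rcases Finset.mem_union.1 hv with hv | hv
    · exact h5 v (mem_V1.1 (Finset.mem_of_mem_erase hv))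
    · obtain ⟨e, he, rfl⟩ := Finset.mem_image.1 hv
      rw [← h e (Finset.mem_union_right _ he)]
      exact h5 _ ((hE2 e).1 he).1

end Pool.Agent.H.MP_689404_al
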